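import Pool.Agent.Lib.MuZ.PubC
import Pool.Agent.Lib.MuZ.CAsm2
import Pool.Agent.Lib.MuZ.Pc
import Pool.Agent.Lib.MuZ.Sub
import Pool.Agent.Lib.MuZ.PL
import Pool.Agent.Lib.MuZ.Val
import Pool.Agent.Lib.MuZ.Lev
import Pool.Agent.Lib.MuZ.Semi
import Pool.Agent.Lib.MuZ.Uni
import Pool.Agent.Lib.MuZ.CocX
import Pool.Agent.Lib.MuZ.Op
import Pool.Agent.Lib.MuZ.Dim
import Pool.Agent.Lib.MuZ.Lin
import Pool.Agent.Lib.MuZ.LocD
import Pool.Agent.Lib.MuZ.LocE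
import Pool.Agent.Lib.MuZ.EB
import Pool.Agent.Lib.MuZ.Dev
import Pool.Agent.Lib.MuZ.ExtC
import Pool.Agent.Lib.MuZ.FwdC
import Pool.Agent.Lib.MuZ.TFix
import Pool.Agent.Lib.MuZ.QZ
import Pool.Agent.Lib.MuZ.InT
import Pool.Agent.Lib.MuZ.NF
import Pool.Agent.Lib.MuZ.Lay
import Pool.Agent.Lib.MuZ.Tr
import Pool.Agent.Lib.MuZ.LK
import Pool.Agent.Lib.MuZ.Conj
import Pool.Agent.Lib.MuZ.Ram
import Pool.Agent.Lib.MuZ.Frob
import Pool.Agent.Lib.MuZ.Pow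
import Pool.Agent.Lib.MuZ.Tot
import Pool.Agent.Lib.MuZ.Orb
import Pool.Agent.Lib.MuZ.Sup
import Pool.Agent.Lib.MuZ.Fld
import Pool.Agent.Lib.MuZ.Fwd
import Pool.Agent.Lib.MuZ.Bwd

/-!
# MP_d0239a_nt: the finite level criterion for mu = 0
-/

namespace Pool.Agent.Results.MP_d0239a_nt.FiniteLevel

open Pool.Agent.MuP

/-- Let `L / k` be a finite Galois extension of number fields. `X(L^cyc)` is finitely generated over
`ℤ_p` if and only if for every irreducible representation `S` of `Gal(L/k)` over `F_p` there is a layer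
`F = k_n` with `z(F) + e(F) < p ^ n + dim S`, or there are layers `F = k_n`, `F' = k_m`, `m < n`, with
`z(F) + e(F) - z(F') < p ^ n - p ^ m`. -/
theorem result (p : ℕ) [Fact p.Prime] (k L : Fd) (hL : IsNF L) (hkL : k ≤ L)
    (hGal : GalOver k L) :
    XFinGen p (cyc p L) ↔
      ∀ (S : Type) [AddCommGroup S] [Module (ZMod p) S] [Finite S] (ρ : Rep p k S), Irr ρ →
        (∀ v : S, FixedBy ρ L v) → Slow ρ := by
  rw [XFinGen_cyc_iff]
  refine (MuZ.thmC MuZ.c_Pc MuZ.c_Sub MuZ.c_PL MuZ.c_Val MuZ.c_Lev MuZ.c_Semi MuZ.c_Uni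
    MuZ.c_CocX MuZ.c_Op MuZ.c_Dim MuZ.c_Lin MuZ.c_LocD MuZ.c_LocE MuZ.c_EB MuZ.c_Dev MuZ.c_ExtC
    MuZ.c_FwdC MuZ.c_TFix MuZ.c_QZ MuZ.c_InT MuZ.c_NF MuZ.c_Lay MuZ.c_Tr MuZ.c_LK MuZ.conj
    MuZ.ram MuZ.frob MuZ.pow MuZ.tot MuZ.orb MuZ.sup MuZ.fld MuZ.fwd MuZ.bwd p k L hL hkL
    hGal).trans ?_
  have key : ∀ (S : Type) [AddCommGroup S] [Module (ZMod p) S] (ρ : Rep p k S),
      Slow ρ ↔ ∃ (n : ℕ) (F : Fd), MuZ.Layer p k n F ∧
          (Module.rank (ZMod p) (MuZ.ZL p k F ρ) + Module.rank (ZMod p) (MuZ.EL p k F ρ) <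
              ((p ^ n : ℕ) : Cardinal) + Module.rank (ZMod p) S ∨
            ∃ m < n, ∃ F' : Fd, MuZ.Layer p k m F' ∧
              Module.rank (ZMod p) (MuZ.ZL p k F ρ) + Module.rank (ZMod p) (MuZ.EL p k F ρ) +
                ((p ^ m : ℕ) : Cardinal) <
              ((p ^ n : ℕ) : Cardinal) + Module.rank (ZMod p) (MuZ.ZL p k F' ρ)) := by
    intro S _ _ ρ
    unfold Slow
    simp only [layer_iff, zdim_eq, edim_eq]
  constructor
  · intro h S _ _ _ ρ hρ htriv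
    refine (key S ρ).2 (h S ρ hρ fun g hg => ?_)
    exact LinearMap.ext fun v => htriv v g hg
  · intro h S _ _ _ ρ hρ htriv
    exact (key S ρ).1 (h S ρ hρ (fun v g hg => congrArg (fun φ => φ v) (htriv g hg)))

end Pool.Agent.Results.MP_d0239a_nt.FiniteLevel
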