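import Pool.Agent.Lib.DU.Pub.Pub
import Pool.Agent.Lib.DK.All
import Pool.Agent.Lib.DT.All
import Pool.Agent.Lib.DN.Main
import Pool.Agent.Lib.DR.All
import Pool.Agent.Lib.DM.Main
import Pool.Agent.Lib.DU.All

/-!
# MP_d0239a_nt: mu = 0 for abelian extensions of all imaginary quadratic fields, p = 2 and p = 3
-/

namespace Pool.Agent.Results.MP_d0239a_nt.ImaginaryQuadratic

open Pool.Agent.MuP

/-- Let `p` be `2` or `3`, `d` squarefree, `K = ℚ(√-d)`. Let `Λ = ℤ + ℤ ω₂` be the ring of integers of `K`,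
`F₀` a number field which is contained in the field generated by `ω₂`, `j(Λ)` and the values of Weber's
function of `Λ` at all nonzero torsion points of `ℂ/Λ`, and `L / F₀` a finite Galois extension whose degree is
a power of `p`. Then `X(F^cyc)` is finitely generated over `ℤ_p` for every subfield `F` of `L`. -/
theorem result (p d : ℕ) (hd : Squarefree d) (hp : p = 2 ∨ p = 3)
    (Λ : PeriodPair) (h1 : Λ.ω₁ = 1)
    (h2 : Λ.ω₂ = if d % 4 = 3 then (1 + √(d : ℝ) * Complex.I) / 2 else √(d : ℝ) * Complex.I)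
    (ι : Omega →+* ℂ) (F F₀ L : Fd) (hL : IsNF L) (h0 : F₀ ≤ WeberFd ι Λ) (h0L : F₀ ≤ L)
    (hFL : F ≤ L) (hGal : GalOver F₀ L) (a : ℕ) (hdeg : deg L = p ^ a * deg F₀) :
    XFinGen p (cyc p F) :=
  weberFd_full DK.thmDK DT.thmDT DN.mDN DR.thmDR DM.mDM DM.DU.thmDU DN.aL1 DN.aL2 DN.aB1 DS.zR1 p d hd hp Λ h1
    h2 ι F F₀ L hL h0 h0L hFL hGal a hdeg

end Pool.Agent.Results.MP_d0239a_nt.ImaginaryQuadratic
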