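import Pool.Agent.Lib.FW.PDefsF
import Pool.Agent.Lib.FW.PubF

/-!
# MP_d0239a_nt: vanishing of mu for primes of positive density
-/

namespace Pool.Agent.Results.MP_d0239a_nt.PositiveDensity

open Pool.Agent.MuP

/-- Let `F / k` be an extension of number fields such that for some `σ ∈ Gal(Ω/ℚ)` and every conjugate `σ'`
of `σ` the group `Gal(Ω/k)` is contained in `⟨σ'⟩ Gal(Ω/F)` (for example `k` and `F` Galois over `ℚ` and
`F / k` cyclic). Then for a set of prime numbers `p` of positive lower Dirichlet density `K(F^cyc) = F K(k^cyc)`,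
`X(F^cyc)` is finitely generated over `ℤ_p` if and only if `X(k^cyc)` is, and `X(F^cyc)` is finitely generated
over `ℤ_p` if `k` is contained in a cyclotomic field. -/
theorem result (k F : Fd) (hF : IsNF F) (hkF : k ≤ F) (σ : Gam)
    (hσ : ∀ τ : Gam, ∀ κ ∈ gal k, ∃ n : ℕ, (τ * σ * τ⁻¹) ^ n * κ ∈ gal F) :
    PosDens {p : ℕ | p.Prime ∧ KK p (cyc p F) = comp F (KK p (cyc p k)) ∧
      (XFinGen p (cyc p F) ↔ XFinGen p (cyc p k)) ∧ (Cyclo k → XFinGen p (cyc p F))} :=
  pub_two k F hF hkF σ hσ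

end Pool.Agent.Results.MP_d0239a_nt.PositiveDensity
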