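import Pool.Agent.Lib.MuZ.Pub
import Pool.Agent.Lib.MuZ.AsmA
import Pool.Agent.Lib.MuZ.Res
import Pool.Agent.Lib.MuZ.Ext
import Pool.Agent.Lib.MuZ.Alg
import Pool.Agent.Lib.MuZ.Cliff
import Pool.Agent.Lib.MuZ.Crit
import Pool.Agent.Lib.MuZ.Conj
import Pool.Agent.Lib.MuZ.Ram
import Pool.Agent.Lib.MuZ.Frob
import Pool.Agent.Lib.MuZ.Pow
import Pool.Agent.Lib.MuZ.Tot
import Pool.Agent.Lib.MuZ.Orb
import Pool.Agent.Lib.MuZ.Sup
import Pool.Agent.Lib.MuZ.Fld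
import Pool.Agent.Lib.MuZ.Fwd
import Pool.Agent.Lib.MuZ.Bwd

/-!
# MP_d0239a_nt: the subfield criterion for mu = 0
-/

namespace Pool.Agent.Results.MP_d0239a_nt.SubfieldCriterion

open Pool.Agent.MuP

/-- Let `L / k` be a finite Galois extension of number fields and `Fs` a set of intermediate fields such
that every irreducible representation of `Gal(Ω/k)` over `F_p` which is trivial on `Gal(Ω/L)` has a
nonzero vector fixed by `Gal(Ω/F)` for some `F` in `Fs`. Then `X(L^cyc)` is finitely generated over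
`ℤ_p` if and only if `X(F^cyc)` is finitely generated over `ℤ_p` for all `F` in `Fs`. -/
theorem result (p : ℕ) [Fact p.Prime] (k L : Fd) (Fs : Set Fd)
    (hL : IsNF L) (hkL : k ≤ L) (hGal : GalOver k L)
    (hFs : ∀ F ∈ Fs, k ≤ F ∧ F ≤ L)
    (hirr : ∀ (S : Type) [AddCommGroup S] [Module (ZMod p) S] (ρ : Rep p k S), Irr ρ →
      (∀ v : S, FixedBy ρ L v) → ∃ F ∈ Fs, ∃ v : S, v ≠ 0 ∧ FixedBy ρ F v) :
    XFinGen p (cyc p L) ↔ ∀ F ∈ Fs, XFinGen p (cyc p F) := by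
  rw [XFinGen_cyc_iff]
  refine (MuZ.thmA MuZ.res MuZ.ext MuZ.alg MuZ.cliff MuZ.crit MuZ.conj MuZ.ram MuZ.frob MuZ.pow
    MuZ.tot MuZ.orb MuZ.sup MuZ.fld MuZ.fwd MuZ.bwd p k L Fs hL hkL hGal hFs ?_).trans
    (forall₂_congr fun F _ => (XFinGen_cyc_iff p F).symm)
  intro S _ _ ρ hρ htriv
  exact hirr S ρ hρ (fun v g hg => congrArg (fun φ => φ v) (htriv g hg))

end Pool.Agent.Results.MP_d0239a_nt.SubfieldCriterion
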